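import Pool.Agent.Y863.AR.Diff

/-!
# Almost all constant polynomials, up to a factor at most `3`

`p n` is the `n`-th prime, `n ≥ 1`. For every `ε > 0` there is `L` such that in every interval of `H ≥ L`
positive integers all but `ε H` of the `c` are such that one of the constant polynomials `P = c, 2 c, 3 c`
(or `4 c`, if `3 ∤ c`) has the property of the question: `p n + 2 P` is prime for infinitely many `n`,
more precisely for at least `x ^ (1 - η)` of the `n` with `p n ≤ x`, for arbitrarily large `x`. The same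
holds at every scale, uniformly in the `c` up to a constant multiple of `x`.

The coloured Maynard-Tao theorem with a constant below `4` (`Pool.Agent.TH899.UG.NW.exactW`) is from the
starting files, the density Hales-Jewett theorem (`Pool.Agent.H602R3.DHJ`) from the team's files.
-/

set_option autoImplicit false

namespace Pool.Agent.Results.MP_3aaefc_nt.AlmostAllConstantPolynomials

open Finset Filter

/-- the `n`-th prime, `n ≥ 1` -/
noncomputable def p (n : ℕ) : ℕ := Nat.nth Nat.Prime (n - 1)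

/-- the number of the `n ≥ 1` with `y ≤ p n ≤ x` such that `p n + 2 c` is prime -/
noncomputable def count (c : ℕ) (y x : ℝ) : ℕ :=
  {n : ℕ | 1 ≤ n ∧ (p n + 2 * c).Prime ∧ y ≤ p n ∧ (p n : ℝ) ≤ x}.ncard

/-- for every `η > 0` and arbitrarily large `x` at least `x ^ (1 - η)` of the `n` with `p n ≤ x` are such
that `p n + 2 c` is prime -/
def Good (c : ℕ) : Prop := ∀ η : ℝ, 0 < η → ∃ᶠ x : ℝ in atTop, x ^ (1 - η) ≤ (count c 0 x : ℝ)

/-- `3` if `3 ∣ c`, otherwise `4` -/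
def R (c : ℕ) : ℕ := if 3 ∣ c then 3 else 4

theorem p_inj {n m : ℕ} (hn : 1 ≤ n) (hm : 1 ≤ m) (h : p n = p m) : n = m := by
  have := Nat.nth_injective Nat.infinite_setOf_prime h
  omega

theorem prime_p (n : ℕ) : (p n).Prime := Nat.prime_nth_prime _

theorem exists_p {q : ℕ} (hq : q.Prime) : ∃ n, 1 ≤ n ∧ p n = q :=
  ⟨Nat.count Nat.Prime q + 1, by omega, by
    unfold p
    rw [Nat.add_sub_cancel]
    exact Nat.nth_count hq⟩

theorem count_eq (c : ℕ) (y x : ℝ) : count c y x = Pool.Agent.Y863.AR.dif (2 * c) y x := by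
  unfold count Pool.Agent.Y863.AR.dif
  have himg : {q : ℕ | (q.Prime ∧ (q + 2 * c).Prime) ∧ y ≤ q ∧ (q : ℝ) ≤ x} =
      p '' {n : ℕ | 1 ≤ n ∧ (p n + 2 * c).Prime ∧ y ≤ p n ∧ (p n : ℝ) ≤ x} := by
    ext q
    constructor
    · rintro ⟨⟨h1, h2⟩, h3, h4⟩
      obtain ⟨n, hn, rfl⟩ := exists_p h1
      exact ⟨n, ⟨hn, h2, h3, h4⟩, rfl⟩
    · rintro ⟨n, ⟨hn, h2, h3, h4⟩, rfl⟩
      exact ⟨⟨prime_p n, h2⟩, h3, h4⟩
  rw [himg, Set.ncard_image_of_injOn]
  intro n hn m hm h
  exact p_inj hn.1 hm.1 h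

open Pool.Agent.H732R3.BigQ in
theorem good_of {c : ℕ} (h : Big {q : ℕ | q.Prime ∧ (q + 2 * c).Prime}) : Good c := by
  intro η hη
  refine (h η hη).mono fun x hx => hx.trans ?_
  rw [count_eq, Nat.cast_le]
  refine Set.ncard_le_ncard ?_ ((Set.finite_le_nat ⌊x⌋₊).subset fun q hq => Nat.le_floor hq.2.2)
  rintro q ⟨h1, h2⟩
  exact ⟨h1, Nat.cast_nonneg _, h2⟩

open Classical in
theorem result : ∀ ε : ℝ, 0 < ε → ∃ L C : ℕ,
    (∀ u H : ℕ, L ≤ H → (((Ioc u (u + H)).filter (fun c : ℕ =>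
      ∀ j : ℕ, 1 ≤ j → j ≤ R c → ¬ Good (j * c))).card : ℝ) ≤ ε * H) ∧
    ∀ η : ℝ, 0 < η → ∀ᶠ X : ℕ in atTop, ∀ u H : ℕ, L ≤ H → C * (u + H) ≤ X →
      (((Ioc u (u + H)).filter (fun c : ℕ => ∀ j : ℕ, 1 ≤ j → j ≤ R c →
        (count (j * c) (X / C) X : ℝ) < (X : ℝ) ^ (1 - η))).card : ℝ) ≤ ε * H := by
  intro ε hε
  obtain ⟨L, C, hC, h1, h2⟩ := Pool.Agent.Y863.AR.diffs ε hε
  refine ⟨L, C, fun u H hH => ?_, fun η hη => ?_⟩
  · refine le_trans ?_ (h2 u H hH)
    rw [Nat.cast_le]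
    apply card_le_card
    intro c hc
    obtain ⟨h3, h4⟩ := mem_filter.1 hc
    exact mem_filter.2 ⟨h3, fun j hj1 hj2 hg => h4 j hj1 hj2 (good_of hg)⟩
  · filter_upwards [h1 (min η 1) (by positivity) (min_le_right _ _), eventually_ge_atTop 1]
      with X hX hX1 u H hH hCX
    refine le_trans ?_ (hX u H hH hCX)
    rw [Nat.cast_le]
    apply card_le_card
    intro c hc
    obtain ⟨h3, h4⟩ := mem_filter.1 hc
    refine mem_filter.2 ⟨h3, fun j hj1 hj2 => ?_⟩
    have h5 := h4 j hj1 hj2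
    rw [count_eq] at h5
    refine h5.trans_le (Real.rpow_le_rpow_of_exponent_le (by exact_mod_cast hX1) ?_)
    have := min_le_left η 1
    linarith

end Pool.Agent.Results.MP_3aaefc_nt.AlmostAllConstantPolynomials
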