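import Mathlib
import Pool.Agent.Y889.PN.Final

set_option autoImplicit false

namespace Pool.Agent.Results.MP_3aaefc_nt.AlmostAllQuadraticCoefficients

open Finset

/-- the number of `1 ≤ n ≤ N` for which `p_n + 2 f(n)` is prime (`Nat.nth Nat.Prime (n - 1)` is `p_n`) -/
noncomputable def hits (f : ℕ → ℕ) (N : ℕ) : ℕ :=
  ((Icc 1 N).filter (fun n => (Nat.nth Nat.Prime (n - 1) + 2 * f n).Prime)).card

/-- the pairs `(a, c) ∈ [1, A] × [1, D]` for which `p_n + 2 (a n² + c n + h(n))` is prime for fewer than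
`t` of the `n ≤ N` -/
noncomputable def badPairs (A D : ℕ) (h : ℕ → ℕ) (N : ℕ) (t : ℝ) : Finset (ℕ × ℕ) :=
  (Icc 1 A ×ˢ Icc 1 D).filter (fun p => (hits (fun n => p.1 * n ^ 2 + p.2 * n + h n) N : ℝ) < t)

/-- the polynomials `P = v_0 x + v_1 x² + … + v_{d-1} x^d` with all `1 ≤ v_i ≤ H` for which `p_n + 2 P(n)` is
prime for fewer than `t` of the `n ≤ N` -/
noncomputable def badPolys (d H N : ℕ) (t : ℝ) : Finset (Fin d → ℕ) :=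
  (Fintype.piFinset (fun _ : Fin d => Icc 1 H)).filter (fun v =>
    (hits (fun n => ∑ i : Fin d, v i * n ^ ((i : ℕ) + 1)) N : ℝ) < t)

theorem result :
    -- (1) almost all pairs `(a, c)`, for every `h` with `n ∣ h(n)`
    (∀ K : ℕ, ∃ B : ℕ, ∀ ε : ℝ, 0 < ε → ∃ C δ : ℝ, 0 < δ ∧ ∃ A₀ : ℕ, ∀ A : ℕ, A₀ ≤ A →
      ∀ N : ℕ, C * Real.log A ≤ N → (N : ℝ) ^ 2 * Real.log A ^ B ≤ A →
      ∀ D : ℕ, (A : ℝ) * N ≤ D * Real.log A ^ K → (D : ℝ) ≤ A * N * Real.log A ^ K →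
      ∀ h : ℕ → ℕ, (∀ n, 1 ≤ n → n ≤ N → n ∣ h n ∧ (h n : ℝ) ≤ A * N ^ 2 * Real.log A ^ K) →
        ((badPairs A D h N (δ * (N / Real.log A))).card : ℝ) ≤ ε * (A * D)) ∧
    -- (2) almost all polynomials of degree `d` without constant term
    (∀ d κ : ℕ, 2 ≤ d → ∀ ε : ℝ, 0 < ε → ∃ C δ : ℝ, 0 < δ ∧ ∃ H₀ : ℕ, ∀ H : ℕ, H₀ ≤ H →
      ∀ N : ℕ, C * Real.log H ≤ N → (N : ℝ) ≤ Real.log H ^ κ →
        ((badPolys d H N (δ * (N / Real.log H))).card : ℝ) ≤ ε * (H : ℝ) ^ d) :=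
  ⟨Pool.Agent.Y889.PN.pairs, fun d κ hd ε hε => Pool.Agent.Y889.PN.polys d κ hd ε hε⟩

end Pool.Agent.Results.MP_3aaefc_nt.AlmostAllQuadraticCoefficients
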